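import Mathlib

/-!
# Analytic sets covered by few compact subsets
-/

set_option autoImplicit false

namespace Pool.Agent.K7.H35.V

open Set Topology

/-- For each family of dense subsets of the set of finite sequences, indexed by `J`, there is a
sequence with an initial segment in each member. -/
def MD (J : Type) : Prop :=
  ∀ D : J → List ℕ → Prop, (∀ j s, ∃ t, s <+: t ∧ D j t) →
    ∃ x : ℕ → ℕ, ∀ j, ∃ t : List ℕ, (∀ i < t.length, x i = t.getD i 0) ∧ D j t

theorem MD.of_surj {I J : Type} (h : MD I) (f : I → J) (hf : Function.Surjective f) : MD J := by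
  intro D hD
  obtain ⟨x, hx⟩ := h (fun i => D (f i)) fun i s => hD (f i) s
  refine ⟨x, fun j => ?_⟩
  obtain ⟨i, rfl⟩ := hf j
  exact hx i

/-- initial segment -/
def res (x : ℕ → ℕ) (n : ℕ) : List ℕ := (List.range n).map x

@[simp] theorem length_res (x : ℕ → ℕ) (n : ℕ) : (res x n).length = n := by simp [res]

theorem res_succ (x : ℕ → ℕ) (n : ℕ) : res x (n + 1) = res x n ++ [x n] := by
  simp [res, List.range_succ]

@[simp] theorem res_zero (x : ℕ → ℕ) : res x 0 = [] := rfl

theorem res_prefix (x : ℕ → ℕ) {m n : ℕ} (h : m ≤ n) : res x m <+: res x n := by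
  induction n, h using Nat.le_induction with
  | base => exact List.prefix_rfl
  | succ n _ ih =>
    rw [res_succ]
    exact ih.trans (List.prefix_append _ _)

/-- the basic open set -/
def U (s : List ℕ) : Set (ℕ → ℕ) := {x | res x s.length = s}

theorem mem_U {s : List ℕ} {x : ℕ → ℕ} : x ∈ U s ↔ res x s.length = s := Iff.rfl

theorem mem_U_res (x : ℕ → ℕ) (n : ℕ) : x ∈ U (res x n) := by
  rw [mem_U, length_res]

theorem mem_U_of_getD {x : ℕ → ℕ} {t : List ℕ} (h : ∀ i < t.length, x i = t.getD i 0) :
    x ∈ U t := by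
  rw [mem_U]
  apply List.ext_getElem
  · simp
  · intro i h1 h2
    have h3 := h i h2
    simp only [res, List.getElem_map, List.getElem_range]
    rw [h3, List.getD_eq_getElem _ _ h2]

theorem mem_U_prefix {s t : List ℕ} (h : s <+: t) {x : ℕ → ℕ} (hx : x ∈ U t) : x ∈ U s := by
  rw [mem_U] at hx ⊢
  have h1 : res x s.length <+: res x t.length := res_prefix x h.length_le
  rw [hx] at h1
  exact (List.prefix_of_prefix_length_le h1 h (by simp)).eq_of_length (by simp)

theorem U_step {s : List ℕ} {x : ℕ → ℕ} (hx : x ∈ U s) : x ∈ U (s ++ [x s.length]) := by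
  rw [mem_U] at hx ⊢
  rw [List.length_append, List.length_singleton, res_succ, hx]

theorem exists_res_nhd {O : Set (ℕ → ℕ)} (hO : IsOpen O) {y : ℕ → ℕ} (hy : y ∈ O) :
    ∃ n, ∀ m ≥ n, ∀ x ∈ U (res y m), x ∈ O := by
  rw [isOpen_pi_iff] at hO
  obtain ⟨I, u, hu, hsub⟩ := hO y hy
  refine ⟨I.sup id + 1, fun m hm x hx => hsub ?_⟩
  intro i hi
  have hi' : i < m := by
    have := Finset.le_sup (f := id) (Finset.mem_coe.1 hi)
    simp only [id] at this
    omega
  have h1 : res x m = res y m := by
    rw [mem_U, length_res] at hx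
    exact hx
  have h2 : x i = y i := by
    have := congrArg (fun l : List ℕ => l[i]?) h1
    simpa [res, hi'] using this
  rw [h2]
  exact (hu i (Finset.mem_coe.1 hi)).2

theorem sigma_of_cover {G : Type} [TopologicalSpace G] {H : Set G}
    (hH : MeasureTheory.AnalyticSet H) {J : Type} (hJ : MD J) (L : J → Set G)
    (hL : ∀ j, IsCompact (L j)) (hLc : ∀ j, IsClosed (L j)) (hLH : (⋃ j, L j) = H) :
    IsSigmaCompact H := by
  classical
  rw [MeasureTheory.AnalyticSet] at hH
  rcases hH with rfl | ⟨π, hπ, hran⟩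
  · exact isSigmaCompact_empty
  let Sm : Set G → Prop := fun A => ∃ F, IsSigmaCompact F ∧ A ⊆ F ∧ F ⊆ H
  have hSmU : ∀ {κ : Type} [Countable κ] (A : κ → Set G), (∀ k, Sm (A k)) → Sm (⋃ k, A k) := by
    intro κ _ A hA
    choose F h1 h2 h3 using hA
    exact ⟨⋃ k, F k, isSigmaCompact_iUnion F h1, iUnion_mono h2, iUnion_subset h3⟩
  have hSmM : ∀ {A B : Set G}, A ⊆ B → Sm B → Sm A := by
    rintro A B hAB ⟨F, h1, h2, h3⟩
    exact ⟨F, h1, hAB.trans h2, h3⟩
  let T : List ℕ → Prop := fun s => ¬ Sm (π '' U s)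
  by_cases hT0 : T []
  swap
  · obtain ⟨F, h1, h2, h3⟩ := not_not.1 hT0
    have h4 : F = H := by
      apply Subset.antisymm h3
      rw [← hran]
      rintro _ ⟨x, rfl⟩
      exact h2 ⟨x, by rw [mem_U]; rfl, rfl⟩
    rw [← h4]
    exact h1
  exfalso
  have hTpre : ∀ {s t : List ℕ}, s <+: t → T t → T s := by
    intro s t hst ht hs
    exact ht (hSmM (image_mono fun x hx => mem_U_prefix hst hx) hs)
  have hTsucc : ∀ s, T s → ∃ k, T (s ++ [k]) := by
    intro s hs
    by_contra hcon
    push Not at hcon
    apply hs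
    refine hSmM ?_ (hSmU (fun k => π '' U (s ++ [k])) fun k => not_not.1 (hcon k))
    rintro _ ⟨x, hx, rfl⟩
    exact mem_iUnion.2 ⟨x s.length, x, U_step hx, rfl⟩
  have hch : ∀ s, ∃ k, T s → T (s ++ [k]) := by
    intro s
    by_cases hs : T s
    · obtain ⟨k, hk⟩ := hTsucc s hs
      exact ⟨k, fun _ => hk⟩
    · exact ⟨0, fun h => absurd h hs⟩
  choose g hg using hch
  let e : List ℕ → ℕ → ℕ := fun t k => if T (t ++ [k]) then k else g t
  have he : ∀ t k, T t → T (t ++ [e t k]) := by
    intro t k ht
    by_cases h : T (t ++ [k])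
    · simp only [e, if_pos h]
      exact h
    · simp only [e, if_neg h]
      exact hg t ht
  let f : List ℕ → ℕ → List ℕ := fun t k => t ++ [e t k]
  have hfold : ∀ (s t : List ℕ), T t → T (s.foldl f t) := by
    intro s
    induction s with
    | nil => intro t ht; exact ht
    | cons k s ih => intro t ht; exact ih _ (he t k ht)
  have hfoldr : ∀ (r t : List ℕ), T (t ++ r) → r.foldl f t = t ++ r := by
    intro r
    induction r with
    | nil => intro t _; simp
    | cons k r ih =>
      intro t ht
      have h1 : t ++ k :: r = (t ++ [k]) ++ r := by simp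
      rw [h1] at ht
      have h2 : T (t ++ [k]) := hTpre (List.prefix_append _ _) ht
      have h3 : f t k = t ++ [k] := by
        simp only [f, e, if_pos h2]
      rw [List.foldl_cons, h3, ih _ ht, h1]
  let st : List ℕ → List ℕ := fun s => s.foldl f []
  have hst : ∀ s, T (st s) := fun s => hfold s [] hT0
  let Bd : Set (ℕ → ℕ) := {x | ∀ n, T (res x n)}
  obtain ⟨x, hx⟩ := hJ (fun j s => ∀ y ∈ U (st s), y ∈ Bd → π y ∉ L j) (by
    intro j s
    by_contra hcon
    push Not at hcon
    have h1 : ∀ r, T (st s ++ r) → ∃ y ∈ U (st s ++ r), y ∈ Bd ∧ π y ∈ L j := by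
      intro r hr
      obtain ⟨y, h2, h3, h4⟩ := hcon (s ++ r) (List.prefix_append _ _)
      have h5 : st (s ++ r) = st s ++ r := by
        simp only [st, List.foldl_append]
        exact hfoldr r _ hr
      rw [h5] at h2
      exact ⟨y, h2, h3, h4⟩
    have h2 : ∀ y ∈ U (st s), y ∈ Bd → π y ∈ L j := by
      intro y hy hyB
      by_contra hyL
      have hO : IsOpen (π ⁻¹' (L j)ᶜ) := (hLc j).isOpen_compl.preimage hπ
      obtain ⟨n, hn⟩ := exists_res_nhd hO (y := y) hyL
      have h3 : st s <+: res y (max n (st s).length) := by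
        rw [mem_U] at hy
        have := res_prefix y (le_max_right n (st s).length)
        rwa [hy] at this
      obtain ⟨r, hr⟩ := h3
      obtain ⟨z, hz1, _, hz3⟩ := h1 r (by rw [hr]; exact hyB _)
      rw [hr] at hz1
      exact hn _ (le_max_left _ _) z hz1 hz3
    apply hst s
    refine hSmM ?_ (hSmU (κ := Option (List ℕ)) (fun o => match o with
      | none => L j
      | some u => if T u then ∅ else π '' U u) ?_)
    · rintro _ ⟨y, hy, rfl⟩
      by_cases hyB : y ∈ Bd
      · exact mem_iUnion.2 ⟨none, h2 y hy hyB⟩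
      · simp only [Bd, Set.mem_ofPred_eq, not_forall] at hyB
        obtain ⟨n, hn⟩ := hyB
        refine mem_iUnion.2 ⟨some (res y n), ?_⟩
        simp only [if_neg hn]
        exact ⟨y, mem_U_res y n, rfl⟩
    · rintro (_ | u)
      · exact ⟨L j, (hL j).isSigmaCompact, Subset.rfl, hLH ▸ subset_iUnion L j⟩
      · by_cases hu : T u
        · simp only [if_pos hu]
          exact ⟨∅, isSigmaCompact_empty, Subset.rfl, empty_subset _⟩
        · simp only [if_neg hu]
          exact not_not.1 hu)
  -- the branch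
  let y : ℕ → ℕ := fun n => e (st (res x n)) (x n)
  have hy : ∀ n, st (res x n) = res y n := by
    intro n
    induction n with
    | zero => rfl
    | succ n ih =>
      rw [res_succ x, res_succ y]
      simp only [st, List.foldl_append, List.foldl_cons, List.foldl_nil]
      show f (st (res x n)) (x n) = _
      simp only [f, y]
      rw [ih]
  have hyB : y ∈ Bd := fun n => by
    rw [← hy]
    exact hst _
  have hyH : π y ∈ ⋃ j, L j := by
    rw [hLH, ← hran]
    exact mem_range_self y
  obtain ⟨j, hj⟩ := mem_iUnion.1 hyH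
  obtain ⟨t, ht1, ht2⟩ := hx j
  refine ht2 y ?_ hyB hj
  have h1 : res x t.length = t := mem_U_of_getD ht1
  rw [← h1, hy]
  exact mem_U_res y _

open scoped Pointwise in
/-- products -/
def prodSet {G : Type} [Group G] {J : Type} (L : J → Set G) : List (J × Bool) → Set G
  | [] => {1}
  | (j, b) :: l => (if b then L j else (L j)⁻¹) * prodSet L l

open scoped Pointwise in
theorem closure_eq {G : Type} [Group G] {J : Type} (L : J → Set G) :
    ((Subgroup.closure (⋃ j, L j) : Subgroup G) : Set G) = ⋃ l, prodSet L l := by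
  apply Subset.antisymm
  · intro x hx
    have hx' : x ∈ Submonoid.closure ((⋃ j, L j) ∪ (⋃ j, L j)⁻¹) := by
      rw [← Subgroup.closure_toSubmonoid]
      exact hx
    obtain ⟨l, hl, rfl⟩ := Submonoid.exists_list_of_mem_closure hx'
    clear hx hx'
    induction l with
    | nil => exact mem_iUnion.2 ⟨[], rfl⟩
    | cons a l ih =>
      obtain ⟨l', hl'⟩ := mem_iUnion.1 (ih fun x hx => hl x (List.mem_cons_of_mem _ hx))
      rw [List.prod_cons]
      rcases hl a List.mem_cons_self with h | h
      · obtain ⟨j, hj⟩ := mem_iUnion.1 h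
        refine mem_iUnion.2 ⟨(j, true) :: l', ?_⟩
        exact Set.mul_mem_mul hj hl'
      · obtain ⟨j, hj⟩ := mem_iUnion.1 (Set.mem_inv.1 h)
        refine mem_iUnion.2 ⟨(j, false) :: l', ?_⟩
        exact Set.mul_mem_mul (Set.mem_inv.2 hj) hl'
  · refine iUnion_subset fun l => ?_
    induction l with
    | nil =>
      rintro x rfl
      exact Subgroup.one_mem _
    | cons a l ih =>
      obtain ⟨j, b⟩ := a
      intro x hx
      obtain ⟨u, hu, v, hv, rfl⟩ := Set.mem_mul.1 hx
      refine Subgroup.mul_mem _ ?_ (ih hv)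
      cases b
      · have hu' : u⁻¹ ∈ L j := hu
        have := Subgroup.subset_closure (mem_iUnion.2 ⟨j, hu'⟩)
        exact (Subgroup.inv_mem_iff _).1 this
      · exact Subgroup.subset_closure (mem_iUnion.2 ⟨j, hu⟩)

open scoped Pointwise in
theorem prodSet_compact {G : Type} [TopologicalSpace G] [Group G] [IsTopologicalGroup G]
    {J : Type} (L : J → Set G) (hL : ∀ j, IsCompact (L j)) (l : List (J × Bool)) :
    IsCompact (prodSet L l) := by
  induction l with
  | nil => exact isCompact_singleton
  | cons a l ih =>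
    obtain ⟨j, b⟩ := a
    cases b
    · exact (hL j).inv.mul ih
    · exact (hL j).mul ih

end Pool.Agent.K7.H35.V
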