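import Pool.Agent.H458R4.Cohen
import Pool.Agent.Helper539.LadClos

/-!
# Adding Cohen reals: catching the traces of the closed sets
-/

set_option autoImplicit false

namespace Pool.Agent.K7.H35.V

open Cardinal Set Pool.Agent.Helper669.Forcing Pool.Agent.H458R4.Cohen

/-- The set of natural numbers named by `a` is included in the one named by `b`. -/
def Sub {P : Type} [Preorder P] (a b : ℕ → Set P) : Set P :=
  fall fun n => fimp (meets (a n)) (meets (b n))

/-- In the extension: for each map `Ψ` sending sequences of sets of natural numbers to such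
sequences, there are sequences `D ξ` indexed by `I` such that, for each set `b` of natural
numbers, there is `ξ` such that each term of `Ψ (D ξ)` which is included in `b` is included in a
term of `D ξ` which is included in `b`. -/
def Capture (P : Type) [Preorder P] (I : Type) : Set P :=
  fall fun Ψ : (ℕ → ℕ → Set P) → ℕ → ℕ → Set P =>
    fex fun D : I → ℕ → ℕ → Set P =>
      fall fun b : ℕ → Set P => fex fun ξ : I => fall fun m : ℕ =>
        fimp (Sub (Ψ (D ξ) m) b)
          (fex fun i : ℕ => fand (Sub (Ψ (D ξ) m) (D ξ i)) (Sub (D ξ i) b))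

variable {ι : Type}

theorem down_Sub {P : Type} [Preorder P] (a b : ℕ → Set P) : Down (Sub a b) :=
  down_fall fun _ => down_fimp _ _

/-- the names given by a pattern and a sequence of coordinates -/
def name (d : ℕ → ℕ → Set (Fn ℕ)) (c : ℕ → ι) (i n : ℕ) : Set (Fn ι) :=
  {p | ∃ r ∈ d i n, ∀ y ∈ r.g, ((c y.1.1, y.1.2), y.2) ∈ p.g}

theorem name_of (S : ℕ → ℕ → Set (Fn ι)) (c : ℕ → ι)
    (h : ∀ i n, ∀ s ∈ S i n, ∀ y ∈ s.g, y.1.1 ∈ range c) :
    ∃ d, ∀ i n p, p ∈ name d c i n ↔ ∃ s ∈ S i n, p ≤ s := by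
  classical
  refine ⟨fun i n => {r | ∃ s ∈ S i n, r.g.image (fun y => ((c y.1.1, y.1.2), y.2)) = s.g},
    fun i n p => ?_⟩
  constructor
  · rintro ⟨r, ⟨s, hs, hrs⟩, hr⟩
    refine ⟨s, hs, ?_⟩
    rw [le_iff, ← hrs]
    intro z hz
    obtain ⟨y, hy, rfl⟩ := Finset.mem_image.1 hz
    exact hr y hy
  · rintro ⟨s, hs, hps⟩
    have hk : ∀ a : ι, ∃ k : ℕ, a ∈ range c → c k = a := by
      intro a
      by_cases ha : a ∈ range c
      · obtain ⟨k, hk⟩ := ha
        exact ⟨k, fun _ => hk⟩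
      · exact ⟨0, fun h => absurd h ha⟩
    choose k hk using hk
    have hk' : ∀ y ∈ s.g, c (k y.1.1) = y.1.1 := fun y hy => hk _ (h i n s hs y hy)
    let r : Fn ℕ := ⟨s.g.image (fun y => ((k y.1.1, y.1.2), y.2)), by
      intro a b b' hb hb'
      obtain ⟨y, hy, he⟩ := Finset.mem_image.1 hb
      obtain ⟨y', hy', he'⟩ := Finset.mem_image.1 hb'
      simp only [Prod.mk.injEq] at he he'
      obtain ⟨h1, h2⟩ := he
      obtain ⟨h3, h4⟩ := he'
      have h5 : y.1 = y'.1 := by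
        apply Prod.ext
        · rw [← hk' y hy, ← hk' y' hy']
          congr 1
          exact (congrArg Prod.fst h1).trans (congrArg Prod.fst h3).symm
        · exact (congrArg Prod.snd h1).trans (congrArg Prod.snd h3).symm
      rw [← h2, ← h4]
      refine s.fn y.1 _ _ hy ?_
      rw [h5]
      exact hy'⟩
    refine ⟨r, ⟨s, hs, ?_⟩, ?_⟩
    · ext z
      simp only [r, Finset.mem_image, exists_exists_and_eq_and]
      constructor
      · rintro ⟨y, hy, rfl⟩
        rw [hk' y hy]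
        exact hy
      · intro hz
        refine ⟨z, hz, ?_⟩
        rw [hk' z hz]
    · intro y hy
      obtain ⟨z, hz, rfl⟩ := Finset.mem_image.1 hy
      dsimp only
      rw [hk' z hz]
      exact hps hz

/-- replacing a set of conditions by a countable one -/
theorem nice (N : Set (Fn ι)) : ∃ S : Set (Fn ι), S.Countable ∧ meets S = meets N := by
  obtain ⟨A, hAE, hAc, hApre, _⟩ := exists_antichain
    (E := {r : Fn ι | (∃ s ∈ N, r ≤ s) ∨ r ∈ fnot (meets N)}) (by
      intro p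
      by_cases h : p ∈ fnot (meets N)
      · exact ⟨p, le_rfl, Or.inr h⟩
      · simp only [fnot, Set.mem_ofPred_eq, not_forall, not_not] at h
        obtain ⟨q, hq, hqm⟩ := h
        obtain ⟨r, hr, s, hs, hrs⟩ := hqm q le_rfl
        exact ⟨r, hr.trans hq, Or.inl ⟨s, hs, hrs⟩⟩)
  refine ⟨A ∩ {r | ∃ s ∈ N, r ≤ s}, hAc.mono inter_subset_left, ?_⟩
  apply Subset.antisymm
  · intro p hp q hq
    obtain ⟨r, hr, s, hs, hrs⟩ := hp q hq
    obtain ⟨t, ht, hst⟩ := hs.2
    exact ⟨r, hr, t, ht, hrs.trans hst⟩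
  · intro p hp q hq
    obtain ⟨a, ha, t, hta, htq⟩ := hApre q
    refine ⟨t, htq, a, ⟨ha, ?_⟩, hta⟩
    rcases hAE ha with h | h
    · exact h
    · exact absurd (down_meets _ _ hp t (htq.trans hq)) (h t hta)

/-- the coordinates used by a set of conditions -/
def supp (N : Set (Fn ι)) : Set ι := {α | ∃ s ∈ N, ∃ y ∈ s.g, y.1.1 = α}

theorem supp_countable {N : Set (Fn ι)} (hN : N.Countable) : (supp N).Countable := by
  have h : supp N ⊆ ⋃ s ∈ N, (fun y : (ι × ℕ) × Bool => y.1.1) '' (s.g : Set ((ι × ℕ) × Bool)) := by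
    rintro α ⟨s, hs, y, hy, rfl⟩
    exact mem_biUnion hs ⟨y, Finset.mem_coe.2 hy, rfl⟩
  exact (hN.biUnion fun s _ => (Finset.countable_toSet _).image _).mono h

open Classical in
/-- restriction of a condition -/
noncomputable def rs (p : Fn ι) (S : Set ι) : Fn ι :=
  ⟨p.g.filter fun y => y.1.1 ∈ S, fun a b b' hb hb' =>
    p.fn a b b' (Finset.mem_filter.1 hb).1 (Finset.mem_filter.1 hb').1⟩

theorem mem_rs {p : Fn ι} {S : Set ι} {y : (ι × ℕ) × Bool} :
    y ∈ (rs p S).g ↔ y ∈ p.g ∧ y.1.1 ∈ S := by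
  classical
  simp [rs]

theorem rs_meets {N : Set (Fn ι)} {B : Set ι} (hB : supp N ⊆ B) {p : Fn ι} (hp : p ∈ meets N) :
    rs p B ∈ meets N := by
  classical
  intro q hq
  -- combine `q` on `B` and `p` outside
  let u : Fn ι := ⟨(rs q B).g ∪ (rs p Bᶜ).g, by
    intro a b b' hb hb'
    rcases Finset.mem_union.1 hb with hb | hb <;> rcases Finset.mem_union.1 hb' with hb' | hb'
    · exact (rs q B).fn _ _ _ hb hb'
    · exact absurd (mem_rs.1 hb).2 (mem_rs.1 hb').2
    · exact absurd (mem_rs.1 hb').2 (mem_rs.1 hb).2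
    · exact (rs p Bᶜ).fn _ _ _ hb hb'⟩
  have hup : u ≤ p := by
    intro y hy
    by_cases hyB : y.1.1 ∈ B
    · exact Finset.mem_union_left _ (mem_rs.2 ⟨hq (mem_rs.2 ⟨hy, hyB⟩), hyB⟩)
    · exact Finset.mem_union_right _ (mem_rs.2 ⟨hy, hyB⟩)
  obtain ⟨r, hr, s, hs, hrs⟩ := hp u hup
  -- combine `s` and `q`
  have hcomp : Compat s q := by
    rw [compat_iff]
    intro a b b' hb hb'
    have haB : a.1 ∈ B := hB ⟨s, hs, (a, b), hb, rfl⟩
    have h1 : (a, b') ∈ r.g := hr (Finset.mem_union_left _ (mem_rs.2 ⟨hb', haB⟩))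
    exact r.fn a b b' (hrs hb) h1
  obtain ⟨t, hts, htq⟩ := hcomp
  exact ⟨t, htq, s, hs, hts⟩

theorem meets_congr_fimp {P : Type} [Preorder P] {N M : Set P} {p : P}
    (h : ∀ q ≤ p, q ∈ meets N → ∃ r ≤ q, r ∈ meets M) {q : P} (hq : q ≤ p) (hqN : q ∈ meets N) :
    q ∈ meets M := by
  intro q' hq'
  obtain ⟨r, hr, hrM⟩ := h q' (hq'.trans hq) (down_meets _ _ hqN q' hq')
  obtain ⟨r', hr', s, hs, hrs⟩ := hrM r le_rfl
  exact ⟨r', hr'.trans hr, s, hs, hrs⟩

theorem mem_Sub {P : Type} [Preorder P] {a b : ℕ → Set P} {p : P} :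
    p ∈ Sub a b ↔ ∀ n, ∀ q ≤ p, q ∈ meets (a n) → q ∈ meets (b n) := by
  constructor
  · intro h n q hq hqa
    exact meets_congr_fimp (mem_fimp.1 (h n)) hq hqa
  · intro h n
    exact mem_fimp.2 fun q hq hqa => ⟨q, le_rfl, h n q hq hqa⟩

theorem mk_pattern : #(ℕ → ℕ → Set (Fn ℕ)) ≤ continuum := by
  have h0 : Countable (Fn ℕ) := by
    have hinj : Function.Injective (Fn.g (ι := ℕ)) := fun p q h => ext_g h
    exact hinj.countable
  have h1 : #(Set (Fn ℕ)) ≤ continuum := by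
    rw [mk_set, ← two_power_aleph0]
    exact power_le_power_left two_ne_zero mk_le_aleph0
  have h2 : ∀ X : Type, #X ≤ continuum → #(ℕ → X) ≤ continuum := by
    intro X hX
    have h3 : #(ℕ → X) = #X ^ ℵ₀ := by simp [mk_pi]
    rw [h3]
    exact (power_le_power_right hX).trans continuum_power_aleph0.le
  exact h2 _ (h2 _ h1)

theorem capture [Nonempty ι] {I : Type} (hI : #I = continuum) (p₀ : Fn ι) :
    p₀ ∈ Capture (Fn ι) I := by
  classical
  intro Ψ
  obtain ⟨θ0⟩ := ‹Nonempty ι›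
  -- supports of the values
  have hsup : ∀ (d : ℕ → ℕ → Set (Fn ℕ)) (c : ℕ → ι), ∃ e : ℕ → ι, ∃ S : ℕ → ℕ → Set (Fn ι),
      (∀ m n, supp (S m n) ⊆ range e) ∧ ∀ m n, meets (S m n) = meets (Ψ (name d c) m n) := by
    intro d c
    have h1 := fun m n => nice (Ψ (name d c) m n)
    choose S hSc hS using h1
    have h2 : (insert θ0 (⋃ m, ⋃ n, supp (S m n))).Countable :=
      (countable_iUnion fun m => countable_iUnion fun n => supp_countable (hSc m n)).insert θ0
    obtain ⟨e, he⟩ := h2.exists_eq_range (insert_nonempty _ _)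
    refine ⟨e, S, fun m n => ?_, hS⟩
    rw [← he]
    refine Subset.trans ?_ (subset_insert _ _)
    exact (subset_iUnion (fun n => supp (S m n)) n).trans
      (subset_iUnion (fun m => ⋃ n, supp (S m n)) m)
  choose e S hSe hS using hsup
  obtain ⟨A, hθA, hAc, hA⟩ := Pool.Agent.Helper539.LadClos.closure_small (Λ := ℕ) (Θ := ι)
    (D := ℕ → ℕ → Set (Fn ℕ)) (M := I) (by rw [hI]; exact mk_pattern)
    (by rw [hI, mk_nat]; exact continuum_power_aleph0)
    (by rw [hI]; exact (nat_lt_continuum 2).le) θ0 e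
  have hK : #((ℕ → ℕ → Set (Fn ℕ)) × (ℕ → A)) ≤ #I := by
    rw [mk_prod]
    simp only [Cardinal.lift_id]
    rw [hI]
    refine (mul_le_mul' mk_pattern ?_).trans continuum_mul_self.le
    have h3 : #(ℕ → A) = #A ^ ℵ₀ := by simp [mk_pi]
    rw [h3]
    rw [hI] at hAc
    exact (power_le_power_right hAc).trans continuum_power_aleph0.le
  have hKne : Nonempty ((ℕ → ℕ → Set (Fn ℕ)) × (ℕ → A)) := ⟨⟨fun _ _ => ∅, fun _ => ⟨θ0, hθA⟩⟩⟩
  obtain ⟨g⟩ : Nonempty (((ℕ → ℕ → Set (Fn ℕ)) × (ℕ → A)) ↪ I) := Cardinal.le_def _ _ |>.1 hK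
  have hsurj : Function.Surjective (Function.invFun g) := Function.invFun_surjective g.injective
  set f := Function.invFun g with hf
  refine mem_fex_of_mem (fun ξ => name (f ξ).1 (fun k => ((f ξ).2 k : ι)))
    (down_fall fun _ => down_fex _) ?_
  intro b
  -- the support of `b`
  have hb := fun n => nice (b n)
  choose Sb hSbc hSb using hb
  set B : Set ι := ⋃ n, supp (Sb n) with hB
  have hBc : B.Countable := countable_iUnion fun n => supp_countable (hSbc n)
  -- the conditions on `B \ A`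
  have hQc : {q : Fn ι | ∀ y ∈ q.g, y.1.1 ∈ B \ A}.Countable := by
    have h1 : (B \ A).Countable := hBc.mono sdiff_subset
    have h2 : {y : (ι × ℕ) × Bool | y.1.1 ∈ B \ A}.Countable := by
      have h3 : {y : (ι × ℕ) × Bool | y.1.1 ∈ B \ A} =
          ((B \ A) ×ˢ (univ : Set ℕ)) ×ˢ (univ : Set Bool) := by
        ext y
        simp
      rw [h3]
      exact (h1.prod countable_univ).prod countable_univ
    have h4 : {t : Set ((ι × ℕ) × Bool) | t.Finite ∧ t ⊆ {y | y.1.1 ∈ B \ A}}.Countable :=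
      Set.countable_ofPred_finite_subset h2
    refine Set.countable_of_injective_of_countable_image
      (f := fun q : Fn ι => (q.g : Set ((ι × ℕ) × Bool))) ?_ (h4.mono ?_)
    · intro q _ q' _ h
      exact ext_g (Finset.coe_injective h)
    · rintro _ ⟨q, hq, rfl⟩
      exact ⟨Finset.finite_toSet _, fun y hy => hq y hy⟩
  have hQne : {q : Fn ι | ∀ y ∈ q.g, y.1.1 ∈ B \ A}.Nonempty :=
    ⟨⟨∅, fun a b b' h => absurd h (Finset.notMem_empty _)⟩,
      fun y hy => absurd hy (Finset.notMem_empty _)⟩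
  obtain ⟨q, hq⟩ := hQc.exists_eq_range hQne
  -- the code
  let T : ℕ → ℕ → Set (Fn ι) := fun i n =>
    {r | (∀ y ∈ r.g, y.1.1 ∈ B ∩ A) ∧ ∃ u : Fn ι, u.g = r.g ∪ (q i).g ∧ u ∈ meets (b n)}
  obtain ⟨c, hc⟩ : ∃ c : ℕ → A, B ∩ A ⊆ range (fun k => (c k : ι)) := by
    have h1 : (insert θ0 (B ∩ A)).Countable := (hBc.mono inter_subset_left).insert θ0
    obtain ⟨c, hc⟩ := h1.exists_eq_range (insert_nonempty _ _)
    have h2 : ∀ k, c k ∈ A := by
      intro k
      have : c k ∈ insert θ0 (B ∩ A) := hc ▸ mem_range_self k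
      rcases this with h | h
      · rw [h]; exact hθA
      · exact h.2
    refine ⟨fun k => ⟨c k, h2 k⟩, ?_⟩
    show B ∩ A ⊆ range c
    rw [← hc]
    exact subset_insert _ _
  obtain ⟨d, hd⟩ := name_of T (fun k => (c k : ι)) (fun i n s hs y hy => hc (hs.1 y hy))
  obtain ⟨ξ, hξ⟩ := hsurj (d, c)
  refine mem_fex_of_mem ξ (down_fall fun _ => down_fimp _ _) ?_
  intro m
  dsimp only
  rw [hξ]
  refine mem_fimp.2 fun p _ hp => ⟨p, le_rfl, ?_⟩
  obtain ⟨i, hi⟩ : ∃ i, q i = rs p (B \ A) := by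
    have : rs p (B \ A) ∈ range q := by
      rw [← hq]
      exact fun y hy => (mem_rs.1 hy).2
    exact this
  refine mem_fex_of_mem i (down_fand (down_Sub _ _) (down_Sub _ _)) ⟨?_, ?_⟩
  · -- the value is included in the term
    rw [mem_Sub]
    intro n p' hp' hp'm p'' hp''
    have h1 : p'' ∈ meets (S d (fun k => (c k : ι)) m n) := by
      rw [hS]
      exact down_meets _ _ hp'm p'' hp''
    obtain ⟨r, hr, s, hs, hrs⟩ := h1 p'' le_rfl
    have hsA : ∀ y ∈ s.g, y.1.1 ∈ A := by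
      intro y hy
      obtain ⟨l, hl⟩ := hSe d (fun k => (c k : ι)) m n ⟨s, hs, y, hy, rfl⟩
      rw [← hl]
      exact hA d _ (fun k => (c k).2) l
    have hrp : r ≤ p := hr.trans (hp''.trans hp')
    -- the modified condition
    let u : Fn ι := ⟨(rs r (B \ A)ᶜ).g ∪ (rs p (B \ A)).g, by
      intro a b b' hb hb'
      rcases Finset.mem_union.1 hb with hb | hb <;> rcases Finset.mem_union.1 hb' with hb' | hb'
      · exact (rs r _).fn _ _ _ hb hb'
      · exact absurd (mem_rs.1 hb').2 (mem_rs.1 hb).2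
      · exact absurd (mem_rs.1 hb).2 (mem_rs.1 hb').2
      · exact (rs p _).fn _ _ _ hb hb'⟩
    have hus : u ≤ s := by
      intro y hy
      exact Finset.mem_union_left _ (mem_rs.2 ⟨hrs hy, fun h => h.2 (hsA y hy)⟩)
    have hup : u ≤ p := by
      intro y hy
      by_cases h : y.1.1 ∈ B \ A
      · exact Finset.mem_union_right _ (mem_rs.2 ⟨hy, h⟩)
      · exact Finset.mem_union_left _ (mem_rs.2 ⟨hrp hy, h⟩)
    have hum : u ∈ meets (Ψ (name d fun k => (c k : ι)) m n) := by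
      rw [← hS]
      exact meets_of_le hs hus
    have hub : u ∈ meets (b n) := mem_Sub.1 hp n u hup hum
    have hub' : rs u B ∈ meets (b n) := by
      rw [← hSb] at hub ⊢
      exact rs_meets (subset_iUnion (fun n => supp (Sb n)) n) hub
    have hT : rs r (B ∩ A) ∈ T i n := by
      refine ⟨fun y hy => (mem_rs.1 hy).2, rs u B, ?_, hub'⟩
      rw [hi]
      ext y
      rw [Finset.mem_union, mem_rs, mem_rs, mem_rs]
      constructor
      · rintro ⟨hy, hyB⟩
        rcases Finset.mem_union.1 hy with h | h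
        · obtain ⟨h1, h2⟩ := mem_rs.1 h
          refine Or.inl ⟨h1, hyB, ?_⟩
          by_contra h3
          exact h2 ⟨hyB, h3⟩
        · exact Or.inr (mem_rs.1 h)
      · rintro (⟨h1, h2⟩ | ⟨h1, h2⟩)
        · exact ⟨Finset.mem_union_left _ (mem_rs.2 ⟨h1, fun h => h.2 h2.2⟩), h2.1⟩
        · exact ⟨Finset.mem_union_right _ (mem_rs.2 ⟨h1, h2⟩), h2.1⟩
    have hrT : r ≤ rs r (B ∩ A) := fun y hy => (mem_rs.1 hy).1
    exact ⟨r, hr, r, (hd i n r).2 ⟨_, hT, hrT⟩, le_rfl⟩
  · -- the term is included in `b`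
    rw [mem_Sub]
    intro n p' hp' hp'm p'' hp''
    obtain ⟨r, hr, s, hs, hrs⟩ := hp'm p'' hp''
    obtain ⟨t, ht, hst⟩ := (hd i n s).1 hs
    obtain ⟨_, u, hu, hum⟩ := ht
    have hru : r ≤ u := by
      intro y hy
      rw [hu, hi] at hy
      rcases Finset.mem_union.1 hy with h | h
      · exact (hrs.trans hst) h
      · exact (hr.trans (hp''.trans hp')) (mem_rs.1 h).1
    obtain ⟨r', hr', s', hs', hrs'⟩ := hum r hru
    exact ⟨r', hr'.trans hr, s', hs', hrs'⟩

end Pool.Agent.K7.H35.V
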