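import Mathlib

/-!
# Hurewicz sets which are unions of few compact sets
-/

set_option autoImplicit false

namespace Pool.Agent.K7.H35.V

open Set Topology

/-- the Hurewicz covering property -/
def Hur {G : Type} [TopologicalSpace G] (X : Set G) : Prop :=
  ∀ U : ℕ → Set (Set G), (∀ n, (∀ u ∈ U n, IsOpen u) ∧ X ⊆ ⋃₀ U n) →
    ∃ F : ℕ → Finset (Set G), (∀ n, (↑(F n) : Set (Set G)) ⊆ U n) ∧
      ∀ x ∈ X, ∀ᶠ n in Filter.atTop, x ∈ ⋃₀ ((↑(F n) : Set (Set G)))

theorem hur_compact {G : Type} [TopologicalSpace G] [PolishSpace G] [Nonempty G] {X : Set G}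
    (hX : Hur X) (S : ℕ → Set G) (hS : ∀ i, IsClosed (S i)) (hd : ∀ i, Disjoint (S i) X) :
    ∃ K : ℕ → Set G, (∀ m, IsCompact (K m)) ∧ X ⊆ ⋃ m, K m ∧ ∀ m i, Disjoint (K m) (S i) := by
  classical
  let := TopologicalSpace.upgradeIsCompletelyMetrizable G
  let U : ℕ → Set (Set G) := fun n => {u | ∃ y : G, ∃ r : ℝ, r ≤ 1 / ((n : ℝ) + 1) ∧
    u = Metric.ball y r ∧ ∀ i ≤ n, Disjoint (Metric.closedBall y r) (S i)}
  obtain ⟨F, hFU, hF⟩ := hX U (by
    intro n
    refine ⟨?_, ?_⟩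
    · rintro u ⟨y, r, _, rfl, _⟩
      exact Metric.isOpen_ball
    · intro x hx
      have hcl : IsClosed (⋃ i ∈ Finset.range (n + 1), S i) :=
        isClosed_biUnion_finset fun i _ => hS i
      have hxn : x ∈ (⋃ i ∈ Finset.range (n + 1), S i)ᶜ := by
        intro h
        simp only [mem_iUnion] at h
        obtain ⟨i, _, hi⟩ := h
        exact (Set.disjoint_left.1 (hd i)) hi hx
      obtain ⟨ε, hε, hball⟩ := Metric.isOpen_iff.1 hcl.isOpen_compl x hxn
      have hpos : (0 : ℝ) < 1 / ((n : ℝ) + 1) := by positivity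
      have hr : 0 < min (ε / 2) (1 / ((n : ℝ) + 1)) := lt_min (by linarith) hpos
      refine mem_sUnion.2 ⟨Metric.ball x (min (ε / 2) (1 / ((n : ℝ) + 1))),
        ⟨x, _, min_le_right _ _, rfl, ?_⟩, Metric.mem_ball_self hr⟩
      intro i hi
      rw [Set.disjoint_left]
      intro w hw hwS
      have h1 : w ∈ Metric.ball x ε := by
        rw [Metric.mem_ball]
        rw [Metric.mem_closedBall] at hw
        have := min_le_left (ε / 2) (1 / ((n : ℝ) + 1))
        linarith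
      have h2 := hball h1
      apply h2
      simp only [mem_iUnion]
      exact ⟨i, Finset.mem_range.2 (by omega), hwS⟩)
  have hcen : ∀ n, ∀ u : Set G, ∃ y : G, ∃ r : ℝ, u ∈ F n → (r ≤ 1 / ((n : ℝ) + 1) ∧
    u = Metric.ball y r ∧ ∀ i ≤ n, Disjoint (Metric.closedBall y r) (S i)) := by
    intro n u
    by_cases hu : u ∈ F n
    · obtain ⟨y, r, h⟩ := hFU n hu
      exact ⟨y, r, fun _ => h⟩
    · exact ⟨Classical.arbitrary G, 0, fun h => absurd h hu⟩
  choose cen rad hcr using hcen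
  let K : ℕ → Set G := fun m => ⋂ n, ⋂ (_ : m ≤ n), ⋃ u ∈ F n, closure u
  have hKsub : ∀ m n, m ≤ n → K m ⊆ ⋃ u ∈ F n, Metric.closedBall (cen n u) (rad n u) := by
    intro m n hmn x hx
    have h1 : x ∈ ⋃ u ∈ F n, closure u := by
      have := mem_iInter.1 (mem_iInter.1 hx n) hmn
      exact this
    simp only [mem_iUnion] at h1 ⊢
    obtain ⟨u, hu, hxu⟩ := h1
    refine ⟨u, hu, ?_⟩
    have h2 := (hcr n u hu).2.1
    rw [h2] at hxu
    have h3 := Metric.closure_ball_subset_closedBall hxu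
    rw [h2]
    rw [← h2]
    exact h3
  refine ⟨K, fun m => ?_, ?_, ?_⟩
  · have hcl : IsClosed (K m) := by
      refine isClosed_iInter fun n => isClosed_iInter fun _ => ?_
      exact isClosed_biUnion_finset fun u _ => isClosed_closure
    refine TotallyBounded.isCompact_of_isClosed ?_ hcl
    rw [Metric.totallyBounded_iff]
    intro ε hε
    obtain ⟨n₀, hn₀⟩ := exists_nat_one_div_lt hε
    set n := max m n₀ with hn
    have hlt : 1 / ((n : ℝ) + 1) < ε := by
      refine lt_of_le_of_lt ?_ hn₀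
      apply one_div_le_one_div_of_le (by positivity)
      have : (n₀ : ℝ) ≤ n := by exact_mod_cast le_max_right m n₀
      linarith
    refine ⟨(F n).image (cen n), Finset.finite_toSet _, ?_⟩
    intro x hx
    have h1 := hKsub m n (le_max_left _ _) hx
    simp only [mem_iUnion] at h1
    obtain ⟨u, hu, hxu⟩ := h1
    refine mem_biUnion (x := cen n u) (Finset.mem_coe.2 (Finset.mem_image_of_mem _ hu)) ?_
    rw [Metric.mem_ball]
    rw [Metric.mem_closedBall] at hxu
    have := (hcr n u hu).1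
    linarith
  · intro x hx
    obtain ⟨m, hm⟩ := Filter.eventually_atTop.1 (hF x hx)
    refine mem_iUnion.2 ⟨m, mem_iInter.2 fun n => mem_iInter.2 fun hn => ?_⟩
    obtain ⟨u, hu, hxu⟩ := mem_sUnion.1 (hm n hn)
    exact mem_biUnion hu (subset_closure hxu)
  · intro m i
    rw [Set.disjoint_left]
    intro x hx hxS
    have h1 := hKsub m (max m i) (le_max_left _ _) hx
    simp only [mem_iUnion] at h1
    obtain ⟨u, hu, hxu⟩ := h1
    exact (Set.disjoint_left.1 ((hcr _ u hu).2.2 i (le_max_right _ _))) hxu hxS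

/-- In terms of codes: the principle of guessing. -/
def Cap (I : Type) : Prop :=
  ∀ Ψ : (ℕ → Set ℕ) → ℕ → Set ℕ, ∃ D : I → ℕ → Set ℕ, ∀ b : Set ℕ, ∃ ξ : I,
    ∀ m, Ψ (D ξ) m ⊆ b → ∃ i, Ψ (D ξ) m ⊆ D ξ i ∧ D ξ i ⊆ b

theorem union_compact {G : Type} [TopologicalSpace G] [PolishSpace G] [Nonempty G] {I : Type}
    (hP : Cap I) {X : Set G} (hX : Hur X) :
    ∃ L : I × ℕ → Set G, (∀ j, IsCompact (L j)) ∧ (⋃ j, L j) = X := by
  classical
  obtain ⟨Bs, hBc, _, hBb⟩ := TopologicalSpace.exists_countable_basis G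
  have hBne : Bs.Nonempty := by
    obtain ⟨v, hv, _⟩ := hBb.mem_nhds_iff.1 (Filter.univ_mem (f := 𝓝 (Classical.arbitrary G)))
    exact ⟨v, hv⟩
  obtain ⟨B, rfl⟩ := hBc.exists_eq_range hBne
  have hBopen : ∀ n, IsOpen (B n) := fun n => hBb.isOpen (mem_range_self n)
  let C : Set ℕ → Set G := fun a => {x | ∀ n ∈ a, x ∉ B n}
  have hCcl : ∀ a, IsClosed (C a) := by
    intro a
    have : C a = ⋂ n ∈ a, (B n)ᶜ := by
      ext x
      simp [C]
    rw [this]
    exact isClosed_biInter fun n _ => (hBopen n).isClosed_compl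
  have hCrep : ∀ K : Set G, IsClosed K → C {n | Disjoint (B n) K} = K := by
    intro K hK
    ext x
    constructor
    · intro hx
      by_contra hxK
      obtain ⟨v, ⟨n, rfl⟩, hxn, hsub⟩ := hBb.mem_nhds_iff.1 (hK.isOpen_compl.mem_nhds hxK)
      exact hx n (Set.disjoint_left.2 fun w hw hwK => hsub hw hwK) hxn
    · intro hx n hn hxn
      exact Set.disjoint_left.1 hn hxn hx
  have hCanti : ∀ a a' : Set ℕ, a ⊆ a' → C a' ⊆ C a := fun a a' h x hx n hn => hx n (h hn)
  -- the operation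
  have hΨ : ∀ c : ℕ → Set ℕ, ∃ K : ℕ → Set G, (∀ m, IsCompact (K m)) ∧ X ⊆ ⋃ m, K m ∧
      ∀ m i, ¬ C (c i) ⊆ X → ¬ C (c i) ⊆ K m := by
    intro c
    have hz : ∀ i, ∃ S : Set G, IsClosed S ∧ Disjoint S X ∧
        (¬ C (c i) ⊆ X → (S ∩ C (c i)).Nonempty) := by
      intro i
      by_cases h : C (c i) ⊆ X
      · exact ⟨∅, isClosed_empty, Set.empty_disjoint _, fun h' => absurd h h'⟩
      · obtain ⟨z, hz, hzX⟩ := Set.not_subset.1 h
        exact ⟨{z}, isClosed_singleton, Set.disjoint_singleton_left.2 hzX,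
          fun _ => ⟨z, rfl, hz⟩⟩
    choose S hS1 hS2 hS3 using hz
    obtain ⟨K, hK1, hK2, hK3⟩ := hur_compact hX S hS1 hS2
    refine ⟨K, hK1, hK2, fun m i h h' => ?_⟩
    obtain ⟨z, hzS, hzC⟩ := hS3 i h
    exact Set.disjoint_left.1 (hK3 m i) (h' hzC) hzS
  choose K hK1 hK2 hK3 using hΨ
  obtain ⟨D, hD⟩ := hP fun c m => {n | Disjoint (B n) (K c m)}
  refine ⟨fun j => if IsCompact (C (D j.1 j.2)) ∧ C (D j.1 j.2) ⊆ X then C (D j.1 j.2) else ∅,
    fun j => ?_, ?_⟩
  · dsimp only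
    split_ifs with h
    · exact h.1
    · exact isCompact_empty
  · apply Subset.antisymm
    · refine iUnion_subset fun j => ?_
      split_ifs with h
      · exact h.2
      · exact empty_subset _
    · intro x hx
      obtain ⟨ξ, hξ⟩ := hD {n | x ∉ B n}
      obtain ⟨m, hm⟩ := mem_iUnion.1 (hK2 (D ξ) hx)
      obtain ⟨i, hi1, hi2⟩ := hξ m (fun n hn => fun hxn => Set.disjoint_left.1 hn hxn hm)
      have h1 : C (D ξ i) ⊆ K (D ξ) m := by
        have h2 := hCanti _ _ hi1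
        rwa [hCrep _ (hK1 _ _).isClosed] at h2
      have h3 : C (D ξ i) ⊆ X := by
        by_contra h
        exact hK3 (D ξ) m i h h1
      have h4 : IsCompact (C (D ξ i)) := (hK1 (D ξ) m).of_isClosed_subset (hCcl _) h1
      refine mem_iUnion.2 ⟨(ξ, i), ?_⟩
      dsimp only
      rw [if_pos ⟨h4, h3⟩]
      exact fun n hn => hi2 hn

end Pool.Agent.K7.H35.V
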