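import Pool.Agent.K7.H35.V.Topo
import Pool.Agent.K7.H35.V.Baire

/-!
# Groups generated by Hurewicz sets
-/

set_option autoImplicit false

namespace Pool.Agent.K7.H35.V

open Set Topology Cardinal

theorem main_zfc {I : Type} [Infinite I] (hP : Cap I) (hM : MD I) (G : Type)
    [TopologicalSpace G] [PolishSpace G] [Group G] [IsTopologicalGroup G] (X : Set G)
    (hX : Hur X) (hA : MeasureTheory.AnalyticSet ((Subgroup.closure X : Subgroup G) : Set G)) :
    IsSigmaCompact ((Subgroup.closure X : Subgroup G) : Set G) := by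
  obtain ⟨L, hL, rfl⟩ := union_compact hP hX
  have hinf : ℵ₀ ≤ #I := Cardinal.aleph0_le_mk I
  have h1 : #((I × ℕ) × Bool) = #I := by
    rw [mk_prod, mk_prod]
    simp only [Cardinal.lift_id, mk_nat]
    rw [mul_eq_left hinf hinf aleph0_ne_zero]
    rw [mul_eq_left hinf ((mk_le_aleph0).trans hinf) (mk_ne_zero _)]
  have h2 : #(List ((I × ℕ) × Bool)) = #I := by
    rw [← h1, mk_list_eq_mk]
  obtain ⟨f⟩ := Cardinal.eq.1 h2
  have hJ : MD (List ((I × ℕ) × Bool)) := hM.of_surj f.symm f.symm.surjective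
  refine sigma_of_cover hA hJ (prodSet L) (prodSet_compact L hL)
    (fun j => (prodSet_compact L hL j).isClosed) (closure_eq L).symm

end Pool.Agent.K7.H35.V
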